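import Mathlib

/-!
# Rank and symmetric rank over the fields of characteristic two

`MP_351138_al`, Q1, asks for a field `F` such that the rank and the symmetric rank agree for all symmetric tensors of
order three over `F`. We show that no field of characteristic two has this property, and not the fields with three or
five elements either. So such a field has at least seven elements and its characteristic is not two.

* Over a field of characteristic two, let `T` be symmetric with `T(i|i|j) = 0` for all `i`, `j`, and nondegenerate in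
  `n` dimensions. If `T = ∑ λ_s v_s ⊗ v_s ⊗ v_s` then the `n` vectors `(λ_s v_s(i))_s` and the `n` vectors
  `(v_s(i)^2)_s` are linearly independent (the second ones by the Frobenius map) and orthogonal to each other; so there
  are at least `2 n` summands. The tensor of the sum of `m` products `x y z` (in characteristic two: the sum of `m`
  determinants of order three) has rank at most `5 m`.
* Over the field with three elements, adding the cube of `x` to the tensor of `x^2 y` changes the symmetric rank but not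
  the rank.
* Over the field with five elements the norm form of the cubic extension has no nontrivial zero, but every sum of five
  cubes of linear forms in three variables has one (every number is a cube; if three of the forms are the coordinates,
  the other two are one of `5^6` pairs, which are checked one by one).

From Mathlib: `Fin n`: the indices `0, ..., n - 1`; `ℕ∞`: the natural numbers and `∞`; `sInf`: the infimum;
`Fintype.card I`: the number of elements of `I`; `ZMod 3`: the field with three elements.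
-/

set_option autoImplicit false

namespace Pool.Agent.Results.MP_351138_al.CharacteristicTwo

open Finset

universe u

/-- `T` is a sum of `r` simple tensors. -/
def IsSumOfSimple {F : Type*} [Field F] {I J K : Type*} (T : I → J → K → F) (r : ℕ) : Prop :=
  ∃ (a : Fin r → I → F) (b : Fin r → J → F) (c : Fin r → K → F),
    ∀ i j k, T i j k = ∑ s, a s i * b s j * c s k

/-- `T` is a linear combination of `r` symmetric simple tensors. -/
def IsSumOfSymmetricSimple {F : Type*} [Field F] {I : Type*} (T : I → I → I → F) (r : ℕ) : Prop :=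
  ∃ (l : Fin r → F) (v : Fin r → I → F), ∀ i j k, T i j k = ∑ s, l s * (v s i * v s j * v s k)

/-- The rank of a tensor of order three. -/
noncomputable def rank {F : Type*} [Field F] {I J K : Type*} (T : I → J → K → F) : ℕ∞ :=
  sInf {n : ℕ∞ | ∃ r : ℕ, n = r ∧ IsSumOfSimple T r}

/-- The symmetric rank of a tensor of order three (`⊤ = ∞` if there is no expression). -/
noncomputable def srank {F : Type*} [Field F] {I : Type*} (T : I → I → I → F) : ℕ∞ :=
  sInf {n : ℕ∞ | ∃ r : ℕ, n = r ∧ IsSumOfSymmetricSimple T r}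

/-- `T` is symmetric: it does not change if the first two or the last two of the three indices are exchanged (so under
all permutations of the indices). -/
def IsSymmetric {F : Type*} {I : Type*} (T : I → I → I → F) : Prop :=
  ∀ i j k, T i j k = T j i k ∧ T i j k = T i k j

/-- `T` is nondegenerate: no nonzero vector `x` has `∑ x_i T(i|j|k) = 0` for all `j`, `k`. -/
def Nondegenerate {F : Type*} [Field F] {I : Type*} [Fintype I] (T : I → I → I → F) : Prop :=
  ∀ x : I → F, (∀ j k, ∑ i, x i * T i j k = 0) → x = 0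

/-- The tensor of the sum of `m` products `x y z`: `T(i|j|k) = 1` if `i`, `j`, `k` are the three different indices of
one block, otherwise `0`. -/
def blocks (F : Type*) [Field F] (m : ℕ) (i j k : Fin m × Fin 3) : F :=
  if i.1 = j.1 ∧ j.1 = k.1 ∧ i.2 ≠ j.2 ∧ i.2 ≠ k.2 ∧ j.2 ≠ k.2 then 1 else 0

/-- the general lower bound in characteristic two -/
theorem lower {F : Type*} [Field F] [CharP F 2] {I : Type*} [Fintype I] [DecidableEq I] (T : I → I → I → F)
    (h0 : ∀ i j, T i i j = 0) (hn : Nondegenerate T) {r : ℕ} (h : IsSumOfSymmetricSimple T r) :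
    2 * Fintype.card I ≤ r := by
  obtain ⟨l, v, hv⟩ := h
  let D : Matrix (Fin r) I F := Matrix.of fun s i => l s * v s i
  let V : Matrix (Fin r) I F := Matrix.of fun s i => v s i
  have hinj : Function.Injective (Matrix.toLin' D) := by
    rw [injective_iff_map_eq_zero]
    intro x hx
    apply hn
    intro j k
    have h1 : ∀ s, l s * ∑ i, x i * v s i = 0 := by
      intro s
      have h2 := congrFun hx s
      rw [Matrix.toLin'_apply, Matrix.mulVec, dotProduct] at h2
      rw [mul_sum]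
      refine Eq.trans (sum_congr rfl fun i _ => ?_) h2
      simp only [D, Matrix.of_apply]
      ring
    calc ∑ i, x i * T i j k = ∑ i, ∑ s, x i * (l s * (v s i * v s j * v s k)) := by
          refine sum_congr rfl fun i _ => ?_
          rw [hv, mul_sum]
      _ = ∑ s, (l s * ∑ i, x i * v s i) * (v s j * v s k) := by
          rw [sum_comm]
          refine sum_congr rfl fun s _ => ?_
          rw [mul_sum, sum_mul]
          refine sum_congr rfl fun i _ => by ring
      _ = 0 := by
          refine sum_eq_zero fun s _ => ?_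
          rw [h1 s, zero_mul]
  obtain ⟨g, hg⟩ := LinearMap.exists_leftInverse_of_injective (Matrix.toLin' D) (LinearMap.ker_eq_bot.2 hinj)
  let Q : Matrix I (Fin r) F := LinearMap.toMatrix' g
  have hQ : Q * D = 1 := by
    have h1 : LinearMap.toMatrix' (g ∘ₗ Matrix.toLin' D) = Q * D := by
      rw [LinearMap.toMatrix'_comp, LinearMap.toMatrix'_toLin']
    rw [← h1, hg, LinearMap.toMatrix'_id]
  let P : Matrix I (Fin r) F := Matrix.of fun i s => Q i s * l s
  have hP : P * V = 1 := by
    rw [← hQ]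
    ext i j
    rw [Matrix.mul_apply, Matrix.mul_apply]
    refine sum_congr rfl fun s _ => ?_
    simp only [P, V, D, Matrix.of_apply]
    ring
  let V2 : Matrix (Fin r) I F := V.map (frobenius F 2)
  have hV2 : P.map (frobenius F 2) * V2 = 1 := by
    rw [← Matrix.map_mul, hP]
    exact Matrix.map_one _ (map_zero _) (map_one _)
  have hz : V2.transpose * D = 0 := by
    ext i j
    rw [Matrix.mul_apply, Matrix.zero_apply, ← h0 i j, hv]
    refine sum_congr rfl fun s _ => ?_
    simp only [V2, V, D, Matrix.of_apply, Matrix.transpose_apply, Matrix.map_apply, frobenius_def]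
    ring
  have r1 : Fintype.card I ≤ V2.transpose.rank := by
    rw [Matrix.rank_transpose]
    calc Fintype.card I = (1 : Matrix I I F).rank := Matrix.rank_one.symm
      _ = (P.map (frobenius F 2) * V2).rank := by rw [hV2]
      _ ≤ _ := Matrix.rank_mul_le_right _ _
  have r2 : Fintype.card I ≤ D.rank := by
    calc Fintype.card I = (1 : Matrix I I F).rank := Matrix.rank_one.symm
      _ = (Q * D).rank := by rw [hQ]
      _ ≤ _ := Matrix.rank_mul_le_right _ _
  have r3 := Matrix.rank_add_rank_le_card_of_mul_eq_zero hz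
  rw [Fintype.card_fin] at r3
  omega


/-- a decomposition indexed by an arbitrary finite type -/
lemma simple_of {F : Type*} [Field F] {I J K σ : Type*} [Fintype σ] (T : I → J → K → F) (a : σ → I → F) (b : σ → J → F)
    (c : σ → K → F) (h : ∀ i j k, T i j k = ∑ s, a s i * b s j * c s k) : IsSumOfSimple T (Fintype.card σ) := by
  let e := Fintype.equivFin σ
  refine ⟨fun s => a (e.symm s), fun s => b (e.symm s), fun s => c (e.symm s), fun i j k => ?_⟩
  rw [h]
  exact (Equiv.sum_comp e.symm (fun s => a s i * b s j * c s k)).symm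

lemma symm_of {F : Type*} [Field F] {I σ : Type*} [Fintype σ] (T : I → I → I → F) (l : σ → F) (v : σ → I → F)
    (h : ∀ i j k, T i j k = ∑ s, l s * (v s i * v s j * v s k)) : IsSumOfSymmetricSimple T (Fintype.card σ) := by
  let e := Fintype.equivFin σ
  refine ⟨fun s => l (e.symm s), fun s => v (e.symm s), fun i j k => ?_⟩
  rw [h]
  exact (Equiv.sum_comp e.symm (fun s => l s * (v s i * v s j * v s k))).symm

lemma rank_le {F : Type*} [Field F] {I J K : Type*} {T : I → J → K → F} {r : ℕ} (h : IsSumOfSimple T r) :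
    rank T ≤ r := sInf_le ⟨r, rfl, h⟩

lemma srank_le {F : Type*} [Field F] {I : Type*} {T : I → I → I → F} {r : ℕ} (h : IsSumOfSymmetricSimple T r) :
    srank T ≤ r := sInf_le ⟨r, rfl, h⟩

lemma le_srank {F : Type*} [Field F] {I : Type*} {T : I → I → I → F} {n : ℕ}
    (h : ∀ r, IsSumOfSymmetricSimple T r → n ≤ r) : (n : ℕ∞) ≤ srank T := by
  refine le_sInf ?_
  rintro _ ⟨r, rfl, hr⟩
  exact_mod_cast h r hr

/-- The five simple summands of the tensor of `x y z` in characteristic two. -/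
def ca : Fin 5 → Fin 3 → ℕ := ![![1, 0, 0], ![0, 1, 0], ![0, 0, 1], ![1, 0, 1], ![0, 1, 1]]
def cb : Fin 5 → Fin 3 → ℕ := ![![0, 1, 0], ![1, 0, 0], ![1, 1, 1], ![0, 1, 1], ![1, 0, 1]]
def cc : Fin 5 → Fin 3 → ℕ := ![![0, 1, 1], ![1, 0, 1], ![1, 1, 0], ![0, 1, 0], ![1, 0, 0]]

/-- the seven nonzero vectors -/
def cv : Fin 7 → Fin 3 → ℕ := ![![1, 0, 0], ![0, 1, 0], ![0, 0, 1], ![1, 1, 0], ![1, 0, 1], ![0, 1, 1], ![1, 1, 1]]

lemma five : ∀ i j k : Fin 3, (∑ s, ca s i * cb s j * cc s k) % 2 = if i ≠ j ∧ i ≠ k ∧ j ≠ k then 1 else 0 := by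
  decide

lemma seven : ∀ i j k : Fin 3, (∑ s, cv s i * cv s j * cv s k) % 2 = if i ≠ j ∧ i ≠ k ∧ j ≠ k then 1 else 0 := by
  decide

/-- from `0, 1` to `F` -/
lemma cast_sum {F : Type*} [Field F] [CharP F 2] {r : ℕ} (a b c : Fin r → Fin 3 → ℕ)
    (h : ∀ i j k : Fin 3, (∑ s, a s i * b s j * c s k) % 2 = if i ≠ j ∧ i ≠ k ∧ j ≠ k then 1 else 0)
    (i j k : Fin 3) : ∑ s, (a s i : F) * (b s j : F) * (c s k : F) = if i ≠ j ∧ i ≠ k ∧ j ≠ k then 1 else 0 := by
  have h3 : ∑ s, (a s i : F) * (b s j : F) * (c s k : F) = ((∑ s, a s i * b s j * c s k : ℕ) : F) := by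
    push_cast; rfl
  rw [h3, CharP.cast_eq_mod F 2, h]
  split_ifs <;> simp

/-- the block sums -/
lemma block_sum {F : Type*} [Field F] {m r : ℕ} (a b c : Fin r → Fin 3 → F)
    (h : ∀ i j k : Fin 3, ∑ s, a s i * b s j * c s k = if i ≠ j ∧ i ≠ k ∧ j ≠ k then 1 else 0)
    (i j k : Fin m × Fin 3) : blocks F m i j k =
      ∑ s : Fin m × Fin r, (if i.1 = s.1 then a s.2 i.2 else 0) * (if j.1 = s.1 then b s.2 j.2 else 0) *
        (if k.1 = s.1 then c s.2 k.2 else 0) := by
  rw [Fintype.sum_prod_type]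
  rw [sum_eq_single i.1]
  · simp only [if_true]
    by_cases h1 : j.1 = i.1
    · by_cases h2 : k.1 = i.1
      · simp only [h1, h2, if_true]
        rw [h]
        unfold blocks
        simp only [h1, h2, true_and]
      · unfold blocks
        rw [if_neg (fun h3 => h2 (by rw [h3.1, h3.2.1]))]
        simp [h2]
    · unfold blocks
      rw [if_neg (fun h3 => h1 h3.1.symm)]
      simp [h1]
  · intro b _ hb
    refine sum_eq_zero fun s _ => ?_
    rw [if_neg (Ne.symm hb), zero_mul, zero_mul]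
  · intro h
    exact absurd (mem_univ _) h

/-- a symmetric decomposition of one block gives one of all blocks -/
lemma block_symm_of {F : Type*} [Field F] {m r : ℕ} (a : Fin r → Fin 3 → F)
    (h : ∀ i j k : Fin 3, ∑ s, a s i * a s j * a s k = if i ≠ j ∧ i ≠ k ∧ j ≠ k then 1 else 0) :
    IsSumOfSymmetricSimple (blocks F m) (r * m) := by
  have := symm_of (blocks F m) (fun _ => 1) (fun (s : Fin m × Fin r) i => if i.1 = s.1 then a s.2 i.2 else 0)
    (fun i j k => by
      rw [block_sum a a a h i j k]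
      refine sum_congr rfl fun s _ => ?_
      rw [one_mul])
  rwa [Fintype.card_prod, Fintype.card_fin, Fintype.card_fin, Nat.mul_comm] at this

/-- the six points of a hyperoval in the projective plane over the field with four elements -/
def hx {F : Type*} [Field F] (w : F) : Fin 6 → Fin 3 → F :=
  ![![1, 0, 0], ![0, 1, 0], ![0, 0, 1], ![1, 1, 1], ![1, w, w ^ 2], ![1, w ^ 2, w]]

lemma hexa {F : Type*} [Field F] [CharP F 2] {w : F} (hw : w ^ 2 + w + 1 = 0) (i j k : Fin 3) :
    ∑ s, hx w s i * hx w s j * hx w s k = if i ≠ j ∧ i ≠ k ∧ j ≠ k then 1 else 0 := by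
  have two : (2 : F) = 0 := CharTwo.two_eq_zero
  have h3 : w ^ 3 = 1 := by linear_combination (w - 1) * hw
  have h0 : 1 + w + w ^ 2 = 0 := by linear_combination hw
  fin_cases i <;> fin_cases j <;> fin_cases k <;>
    simp only [hx, Fin.sum_univ_six, Matrix.cons_val, Fin.zero_eta, Fin.mk_one, Fin.reduceFinMk, ne_eq, not_true_eq_false,
      false_and, and_false, if_false] <;> 
    first
      | (norm_num; done)
      | linear_combination 2 * two
      | linear_combination ((w - 1) + (w - 1) * (w ^ 3 + 1)) * hw + 2 * two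
      | linear_combination hw
      | linear_combination hw + w * (w - 1) * hw
      | linear_combination hw + w * (w - 1) * hw + w ^ 2 * (w - 1) * hw
      | (rw [if_pos (by decide)]; linear_combination w ^ 3 * two)

lemma blocks_symm (F : Type*) [Field F] (m : ℕ) : IsSymmetric (blocks F m) := by
  intro i j k
  constructor
  · unfold blocks
    refine if_congr ⟨fun h => ?_, fun h => ?_⟩ rfl rfl
    · exact ⟨h.1.symm, h.1.trans h.2.1, h.2.2.1.symm, h.2.2.2.2, h.2.2.2.1⟩
    · exact ⟨h.1.symm, h.1.trans h.2.1, h.2.2.1.symm, h.2.2.2.2, h.2.2.2.1⟩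
  · unfold blocks
    refine if_congr ⟨fun h => ?_, fun h => ?_⟩ rfl rfl
    · exact ⟨h.1.trans h.2.1, h.2.1.symm, h.2.2.2.1, h.2.2.1, h.2.2.2.2.symm⟩
    · exact ⟨h.1.trans h.2.1, h.2.1.symm, h.2.2.2.1, h.2.2.1, h.2.2.2.2.symm⟩

lemma blocks_diag (F : Type*) [Field F] (m : ℕ) (i j : Fin m × Fin 3) : blocks F m i i j = 0 := by
  unfold blocks
  rw [if_neg]
  rintro ⟨-, -, h, -⟩
  exact h rfl

lemma other : ∀ c : Fin 3, c ≠ c + 1 ∧ c ≠ c + 2 ∧ c + 1 ≠ c + 2 ∧ ∀ d : Fin 3, d ≠ c + 1 → d ≠ c + 2 → d = c := by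
  decide

lemma blocks_nondeg (F : Type*) [Field F] (m : ℕ) : Nondegenerate (blocks F m) := by
  intro x hx
  funext i
  obtain ⟨h1, h2, h3, h4⟩ := other i.2
  have h := hx (i.1, i.2 + 1) (i.1, i.2 + 2)
  rw [sum_eq_single i] at h
  · unfold blocks at h
    rw [if_pos ⟨rfl, rfl, h1, h2, h3⟩, mul_one] at h
    rw [h]
    rfl
  · intro j _ hj
    unfold blocks
    rw [if_neg, mul_zero]
    rintro ⟨e1, -, e2, e3, -⟩
    exact hj (Prod.ext e1 (h4 _ e2 e3))
  · intro h5
    exact absurd (mem_univ _) h5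

/-- The tensor over the field with three elements: `T(0|0|0) = 1`, `T(i|j|k) = 1` if exactly one of the indices is
`1`, otherwise `0`. -/
def tangent (i j k : Fin 2) : ZMod 3 := if i.1 + j.1 + k.1 ≤ 1 then 1 else 0

lemma symm_succ {F : Type*} [Field F] {I : Type*} {T : I → I → I → F} {r : ℕ} (h : IsSumOfSymmetricSimple T r) :
    IsSumOfSymmetricSimple T (r + 1) := by
  obtain ⟨l, v, hv⟩ := h
  refine ⟨Fin.cons 0 l, Fin.cons 0 v, fun i j k => ?_⟩
  rw [Fin.sum_univ_succ]
  simp [hv]

lemma symm_mono {F : Type*} [Field F] {I : Type*} {T : I → I → I → F} {r r' : ℕ} (h : IsSumOfSymmetricSimple T r)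
    (hr : r ≤ r') : IsSumOfSymmetricSimple T r' := by
  induction hr with
  | refl => exact h
  | step _ ih => exact symm_succ ih

lemma no_three : ∀ l₀ a₀ b₀ l₁ a₁ b₁ l₂ a₂ b₂ : ZMod 3,
    ¬ (1 = l₀ * (a₀ * a₀ * a₀) + l₁ * (a₁ * a₁ * a₁) + l₂ * (a₂ * a₂ * a₂) ∧
      1 = l₀ * (a₀ * a₀ * b₀) + l₁ * (a₁ * a₁ * b₁) + l₂ * (a₂ * a₂ * b₂) ∧
      0 = l₀ * (a₀ * b₀ * b₀) + l₁ * (a₁ * b₁ * b₁) + l₂ * (a₂ * b₂ * b₂) ∧
      0 = l₀ * (b₀ * b₀ * b₀) + l₁ * (b₁ * b₁ * b₁) + l₂ * (b₂ * b₂ * b₂)) := by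
  decide +kernel

lemma tangent_lower {r : ℕ} (h : IsSumOfSymmetricSimple tangent r) : 4 ≤ r := by
  by_contra hr
  obtain ⟨l, v, hv⟩ := symm_mono h (show r ≤ 3 by omega)
  refine no_three (l 0) (v 0 0) (v 0 1) (l 1) (v 1 0) (v 1 1) (l 2) (v 2 0) (v 2 1) ⟨?_, ?_, ?_, ?_⟩
  · have := hv 0 0 0
    rw [Fin.sum_univ_three] at this
    exact this
  · have := hv 0 0 1
    rw [Fin.sum_univ_three] at this
    exact this
  · have := hv 0 1 1
    rw [Fin.sum_univ_three] at this
    exact this
  · have := hv 1 1 1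
    rw [Fin.sum_univ_three] at this
    exact this

/-- `5` is a prime number, so `ZMod 5` is a field. -/
instance fact_prime_five : Fact (Nat.Prime 5) := ⟨by norm_num⟩

/-- A symmetric tensor over the field with five elements (up to a factor the polarisation of the norm form of the cubic
extension): the three `3 x 3` slices `T(0|.|.)`, `T(1|.|.)`, `T(2|.|.)`. -/
def norm5 (i j k : Fin 3) : ZMod 5 :=
  (![![![2, 4, 3], ![4, 1, 0], ![3, 0, 0]], ![![4, 1, 0], ![1, 2, 1], ![0, 1, 0]],
    ![![3, 0, 0], ![0, 1, 0], ![0, 0, 1]]] : Fin 3 → Fin 3 → Fin 3 → ZMod 5) i j k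

/-- `y_0^3 + y_1^3 + y_2^3 + (a y)^3 + (b y)^3 = 0` modulo `5`, `y` the digits of `t` -/
def hit (a₀ a₁ a₂ b₀ b₁ b₂ t : ℕ) : Bool :=
  Nat.beq (((t / 25) ^ 3 + (t / 5 % 5) ^ 3 + (t % 5) ^ 3 + (a₀ * (t / 25) + a₁ * (t / 5 % 5) + a₂ * (t % 5)) ^ 3 +
    (b₀ * (t / 25) + b₁ * (t / 5 % 5) + b₂ * (t % 5)) ^ 3) % 5) 0

lemma all_hit : ∀ A < 125, ∀ B < 125, (List.range' 1 124).any
    (hit (A / 25) (A / 5 % 5) (A % 5) (B / 25) (B / 5 % 5) (B % 5)) = true := by
  decide +kernel

lemma exists_y (a b : Fin 3 → ZMod 5) : ∃ y : Fin 3 → ZMod 5, y ≠ 0 ∧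
    y 0 ^ 3 + y 1 ^ 3 + y 2 ^ 3 + (a 0 * y 0 + a 1 * y 1 + a 2 * y 2) ^ 3 +
      (b 0 * y 0 + b 1 * y 1 + b 2 * y 2) ^ 3 = 0 := by
  have hv : ∀ c : ZMod 5, c.val < 5 := fun c => ZMod.val_lt c
  have ha0 := hv (a 0)
  have ha1 := hv (a 1)
  have ha2 := hv (a 2)
  have hb0 := hv (b 0)
  have hb1 := hv (b 1)
  have hb2 := hv (b 2)
  have h := all_hit (25 * (a 0).val + 5 * (a 1).val + (a 2).val) (by omega)
    (25 * (b 0).val + 5 * (b 1).val + (b 2).val) (by omega)
  rw [show (25 * (a 0).val + 5 * (a 1).val + (a 2).val) / 25 = (a 0).val by omega,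
    show (25 * (a 0).val + 5 * (a 1).val + (a 2).val) / 5 % 5 = (a 1).val by omega,
    show (25 * (a 0).val + 5 * (a 1).val + (a 2).val) % 5 = (a 2).val by omega,
    show (25 * (b 0).val + 5 * (b 1).val + (b 2).val) / 25 = (b 0).val by omega,
    show (25 * (b 0).val + 5 * (b 1).val + (b 2).val) / 5 % 5 = (b 1).val by omega,
    show (25 * (b 0).val + 5 * (b 1).val + (b 2).val) % 5 = (b 2).val by omega] at h
  obtain ⟨t, ht, h⟩ := List.any_eq_true.1 h
  rw [List.mem_range'_1] at ht
  unfold hit at h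
  have h0 := Nat.eq_of_beq_eq_true h
  refine ⟨![((t / 25 : ℕ) : ZMod 5), ((t / 5 % 5 : ℕ) : ZMod 5), ((t % 5 : ℕ) : ZMod 5)], ?_, ?_⟩
  · intro hy
    have e0 := congrFun hy 0
    have e1 := congrFun hy 1
    have e2 := congrFun hy 2
    simp only [Matrix.cons_val, Pi.zero_apply, ZMod.natCast_eq_zero_iff] at e0 e1 e2
    omega
  · have h1 := (ZMod.natCast_eq_zero_iff _ 5).2 (Nat.dvd_of_mod_eq_zero h0)
    push_cast at h1
    simp only [ZMod.natCast_zmod_val] at h1
    simp only [Matrix.cons_val]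
    exact h1

lemma aniso₀ : ∀ p q r : ZMod 5, ∑ i, ∑ j, ∑ k, norm5 i j k * (![p, q, r] i * ![p, q, r] j * ![p, q, r] k) = 0 →
    p = 0 ∧ q = 0 ∧ r = 0 := by
  decide +kernel

lemma aniso (x : Fin 3 → ZMod 5) (h : ∑ i, ∑ j, ∑ k, norm5 i j k * (x i * x j * x k) = 0) : x = 0 := by
  have hx : x = ![x 0, x 1, x 2] := by
    funext i
    fin_cases i <;> rfl
  rw [hx] at h
  obtain ⟨h0, h1, h2⟩ := aniso₀ _ _ _ h
  funext i
  fin_cases i
  · exact h0
  · exact h1
  · exact h2

lemma select₅ {v : Fin 5 → (Fin 3 → ZMod 5)} (h : ∀ x : Fin 3 → ZMod 5, (∀ s, ∑ i, v s i * x i = 0) → x = 0) :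
    ∃ g : Fin 3 → Fin 5, Function.Injective g ∧ LinearIndependent (ZMod 5) (fun i => v (g i)) := by
  have : Fact (Nat.Prime 5) := ⟨by norm_num⟩
  have hr : (Matrix.of v).rank = 3 := by
    have hinj : Function.Injective (Matrix.of v).mulVecLin := by
      rw [injective_iff_map_eq_zero]
      intro x hx
      exact h x fun s => congrFun hx s
    unfold Matrix.rank
    rw [LinearMap.finrank_range_of_inj hinj]
    simp
  rw [Matrix.rank_eq_finrank_span_row] at hr
  obtain ⟨κ, a, ha, hs, hl⟩ := exists_linearIndependent' (ZMod 5) v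
  have : Finite κ := Finite.of_injective a ha
  have := Fintype.ofFinite κ
  have hc : Fintype.card κ = 3 := by
    rw [← finrank_span_eq_card hl, hs]
    exact hr
  let e : Fin 3 ≃ κ := (Fintype.equivFinOfCardEq hc).symm
  refine ⟨a ∘ e, ha.comp e.injective, ?_⟩
  exact hl.comp e e.injective

lemma cube_cube : ∀ l : ZMod 5, (l ^ 3) ^ 3 = l := by decide

lemma norm5_no_five {l : Fin 5 → ZMod 5} {v : Fin 5 → Fin 3 → ZMod 5}
    (hv : ∀ i j k, norm5 i j k = ∑ s, l s * (v s i * v s j * v s k)) : False := by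
  have : Fact (Nat.Prime 5) := ⟨by norm_num⟩
  let u : Fin 5 → Fin 3 → ZMod 5 := fun s i => l s ^ 3 * v s i
  have key : ∀ x : Fin 3 → ZMod 5, ∑ i, ∑ j, ∑ k, norm5 i j k * (x i * x j * x k) = ∑ s, (∑ i, u s i * x i) ^ 3 := by
    intro x
    have e1 : ∀ s, (∑ i, u s i * x i) ^ 3 = ∑ i, ∑ j, ∑ k, l s * (v s i * v s j * v s k) * (x i * x j * x k) := by
      intro s
      have e2 : ∑ i, u s i * x i = l s ^ 3 * ∑ i, v s i * x i := by
        rw [mul_sum]
        refine sum_congr rfl fun i _ => ?_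
        simp only [u]
        ring
      rw [e2, mul_pow, cube_cube]
      simp only [Fin.sum_univ_three]
      ring
    simp only [e1, hv, sum_mul]
    calc ∑ i, ∑ j, ∑ k, ∑ s, l s * (v s i * v s j * v s k) * (x i * x j * x k) =
        ∑ i, ∑ j, ∑ s, ∑ k, l s * (v s i * v s j * v s k) * (x i * x j * x k) :=
          sum_congr rfl fun i _ => sum_congr rfl fun j _ => sum_comm
      _ = ∑ i, ∑ s, ∑ j, ∑ k, l s * (v s i * v s j * v s k) * (x i * x j * x k) :=
          sum_congr rfl fun i _ => sum_comm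
      _ = ∑ s, ∑ i, ∑ j, ∑ k, l s * (v s i * v s j * v s k) * (x i * x j * x k) := sum_comm
  obtain ⟨g, hg, hli⟩ := select₅ (v := u) (fun x hx => aniso x (by
    rw [key]
    exact sum_eq_zero fun s _ => by rw [hx s]; ring))
  let M : Matrix (Fin 3) (Fin 3) (ZMod 5) := Matrix.of fun i => u (g i)
  have hM : IsUnit M := Matrix.linearIndependent_rows_iff_isUnit.1 hli
  have hM2 : M * M⁻¹ = 1 := Matrix.mul_nonsing_inv _ ((Matrix.isUnit_iff_isUnit_det _).1 hM)
  have hcard : (univ \ image g univ).card = 2 := by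
    rw [card_sdiff_of_subset (subset_univ _), card_image_of_injective _ hg]
    simp
  obtain ⟨j₁, j₂, hne, hS⟩ := Finset.card_eq_two.1 hcard
  have hsum : ∀ F : Fin 5 → ZMod 5, ∑ s, F s = ∑ i, F (g i) + (F j₁ + F j₂) := by
    intro F
    rw [← sum_sdiff (subset_univ (image g univ)), hS, sum_pair hne, sum_image (fun _ _ _ _ h => hg h), add_comm]
  obtain ⟨y, hy0, hy⟩ := exists_y (Matrix.vecMul (u j₁) M⁻¹) (Matrix.vecMul (u j₂) M⁻¹)
  let x : Fin 3 → ZMod 5 := M⁻¹.mulVec y
  have hx : M.mulVec x = y := by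
    simp only [x]
    rw [Matrix.mulVec_mulVec, hM2, Matrix.one_mulVec]
  have hgi : ∀ i, ∑ k, u (g i) k * x k = y i := fun i => congrFun hx i
  have hj : ∀ j, ∑ k, u j k * x k = (Matrix.vecMul (u j) M⁻¹) 0 * y 0 + (Matrix.vecMul (u j) M⁻¹) 1 * y 1 +
      (Matrix.vecMul (u j) M⁻¹) 2 * y 2 := by
    intro j
    have e := Matrix.dotProduct_mulVec (u j) M⁻¹ y
    rw [dotProduct, dotProduct, Fin.sum_univ_three (fun i => (Matrix.vecMul (u j) M⁻¹) i * y i)] at e
    exact e
  have h0 : ∑ s, (∑ i, u s i * x i) ^ 3 = 0 := by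
    rw [hsum, Fin.sum_univ_three, hgi, hgi, hgi, hj, hj]
    linear_combination hy
  have hx0 : x = 0 := aniso x (by rw [key, h0])
  apply hy0
  rw [← hx, hx0, Matrix.mulVec_zero]

lemma norm5_lower {r : ℕ} (h : IsSumOfSymmetricSimple norm5 r) : 6 ≤ r := by
  by_contra hr
  obtain ⟨l, v, hv⟩ := symm_mono h (show r ≤ 5 by omega)
  exact norm5_no_five hv

/-- Let `F` be a field of characteristic two.
* Let `T` be a tensor of order three over `F` with `T(i|i|j) = 0` for all `i`, `j`, and nondegenerate, with the finite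
  index set `I`. Then `srank T ≥ 2 |I|`.
* For every `m` the symmetric tensor `blocks F m` has `rank ≤ 5 m` and `6 m ≤ srank ≤ 7 m`. If there is an element `w`
  of `F` with `w ^ 2 + w + 1 = 0`, then `srank = 6 m`.

Over the field with three elements the symmetric tensor `tangent` has `rank ≤ 3` and `srank = 4`.

Over the field with five elements the symmetric tensor `norm5` has `rank ≤ 5` and `srank = 6`. -/
theorem result :
    (∀ (F : Type u) [Field F] [CharP F 2],
      (∀ (I : Type) [Fintype I] (T : I → I → I → F), (∀ i j, T i i j = 0) → Nondegenerate T →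
        ((2 * Fintype.card I : ℕ) : ℕ∞) ≤ srank T) ∧
      ∀ m : ℕ, IsSymmetric (blocks F m) ∧ rank (blocks F m) ≤ (5 * m : ℕ) ∧ ((6 * m : ℕ) : ℕ∞) ≤ srank (blocks F m) ∧
        srank (blocks F m) ≤ (7 * m : ℕ) ∧
        ((∃ w : F, w ^ 2 + w + 1 = 0) → srank (blocks F m) = (6 * m : ℕ))) ∧
    (IsSymmetric tangent ∧ rank tangent ≤ 3 ∧ srank tangent = 4) ∧
    (IsSymmetric norm5 ∧ rank norm5 ≤ 5 ∧ srank norm5 = 6) := by
  classical
  have low : ∀ (F : Type u) [Field F] [CharP F 2] (m : ℕ), ((6 * m : ℕ) : ℕ∞) ≤ srank (blocks F m) := by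
    intro F _ _ m
    refine le_srank fun r hr => ?_
    have := lower _ (blocks_diag F m) (blocks_nondeg F m) hr
    rw [Fintype.card_prod, Fintype.card_fin, Fintype.card_fin] at this
    omega
  refine ⟨fun F _ _ => ⟨fun I _ T h0 hn => le_srank fun r hr => lower T h0 hn hr, fun m => ⟨blocks_symm F m, ?_, low F m,
    ?_, ?_⟩⟩, ⟨?_, ?_, ?_⟩, ?_, ?_, ?_⟩
  · refine rank_le ?_
    have := simple_of (blocks F m) _ _ _ (block_sum _ _ _ (cast_sum (F := F) ca cb cc five))
    rwa [Fintype.card_prod, Fintype.card_fin, Fintype.card_fin, Nat.mul_comm] at this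
  · exact srank_le (block_symm_of _ (cast_sum cv cv cv seven))
  · rintro ⟨w, hw⟩
    exact le_antisymm (srank_le (block_symm_of _ (hexa hw))) (low F m)
  · intro i j k
    revert i j k
    decide
  · refine rank_le (r := 3) ⟨![![1, 0], ![1, 0], ![0, 1]], ![![1, 0], ![0, 1], ![1, 0]], ![![1, 1], ![1, 0], ![1, 0]], ?_⟩
    decide
  · refine le_antisymm (srank_le (r := 4) ⟨![1, 1, 2, 2], ![![1, 0], ![1, 2], ![0, 1], ![1, 1]], ?_⟩) ?_
    · decide
    · exact_mod_cast le_srank (n := 4) fun r hr => tangent_lower hr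
  · intro i j k
    revert i j k
    decide
  · refine rank_le (r := 5) ⟨![![0, 0, 1], ![0, 1, 0], ![1, 0, 0], ![1, 4, 2], ![1, 3, 3]],
      ![![0, 0, 1], ![0, 1, 0], ![1, 0, 0], ![1, 4, 2], ![1, 3, 3]],
      ![![2, 1, 1], ![2, 2, 1], ![0, 3, 3], ![3, 3, 0], ![4, 3, 0]], ?_⟩
    decide
  · refine le_antisymm (srank_le (r := 6) ⟨![4, 3, 1, 2, 4, 1],
      ![![0, 1, 1], ![1, 3, 1], ![1, 0, 4], ![1, 3, 4], ![0, 1, 0], ![1, 4, 3]], ?_⟩) ?_
    · decide
    · exact_mod_cast le_srank (n := 6) fun r hr => norm5_lower hr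

end Pool.Agent.Results.MP_351138_al.CharacteristicTwo
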